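import Pool.Agent.W307.RT.Stm

/-!
# Curves with prescribed torsion, by height: statements
-/

set_option autoImplicit false

namespace Pool.Agent.L0h5.T8

open Finset Pool.Agent.W262.RK Pool.Agent.W307.RT

/-- the forms for `Z/2 x Z/8`: `y² = x (x + M) (x + N)` -/
def M28 (a b : ℤ) : ℤ := 16 * a ^ 4 * b ^ 4

/-- the forms for `Z/2 x Z/8` -/
def N28 (a b : ℤ) : ℤ := (a ^ 2 - b ^ 2) ^ 4

/-- parametrisation of the curves with a subgroup `Z/2 x Z/8` -/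
def PAR28 : Prop := PAR 8 48 M28 N28

/-- there are many curves with a subgroup `Z/2 x Z/8` -/
def LOW28 : Prop := LOW 8 48

/-- there is a point of order `m` -/
def HasP (m : ℕ) (W : WeierstrassCurve ℚ) : Prop := ∃ P : W.toAffine.Point, addOrderOf P = m

open Classical in
/-- the elliptic curves `y² = x³ + A x + B` of height at most `H`, minimal, with a rational point
of order `m` -/
noncomputable def Cc (m H : ℕ) : Finset (ℤ × ℤ) :=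
  ((Icc (-(H : ℤ)) H) ×ˢ (Icc (-(H : ℤ)) H)).filter (fun c : ℤ × ℤ =>
    4 * c.1 ^ 3 + 27 * c.2 ^ 2 ≠ 0 ∧ 4 * |c.1| ^ 3 ≤ H ∧ 27 * c.2 ^ 2 ≤ H ∧
    (∀ p : ℕ, p.Prime → ¬ ((p : ℤ) ^ 4 ∣ c.1 ∧ (p : ℤ) ^ 6 ∣ c.2)) ∧ HasP m (Sh c.1 c.2))

/-- parametrisation of `Cc m`: every curve has a rational isogeny to `y² = x (x + M a b) (x + N a b)`
for a coprime pair `(a, b)` of size at most `(C H) ^ (1 / k)` -/
def PARc (m k : ℕ) (M N : ℤ → ℤ → ℤ) : Prop :=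
  ∃ (C : ℕ) (F : ℤ × ℤ → ℤ × ℤ), ∀ H : ℕ, Set.InjOn F (Cc m H : Set (ℤ × ℤ)) ∧
    ∀ c ∈ Cc m H, IsCoprime (F c).1 (F c).2 ∧ M (F c).1 (F c).2 ≠ 0 ∧ N (F c).1 (F c).2 ≠ 0 ∧
      M (F c).1 (F c).2 ≠ N (F c).1 (F c).2 ∧
      (F c).1.natAbs ^ k ≤ C * H ∧ (F c).2.natAbs ^ k ≤ C * H ∧
      Module.finrank ℤ (Sh c.1 c.2).toAffine.Point ≤
        Module.finrank ℤ (EAB (-(M (F c).1 (F c).2)) (-(N (F c).1 (F c).2))).toAffine.Point

/-- there are many such curves -/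
def LOWc (m k : ℕ) : Prop :=
  ∃ (c : ℝ) (C T0 : ℕ), 0 < c ∧ ∀ T H : ℕ, T0 ≤ T → C * T ^ k ≤ H → c * T ^ 2 ≤ ((Cc m H).card : ℝ)

/-- ISOG2: the 2-isogeny, rank inequality: `y² = x (x² + a x + b)` and
`y² = x (x² - 2 a x + a² - 4 b)` -/
def ISOG2 : Prop := ∀ a b : ℚ, b ≠ 0 → a ^ 2 - 4 * b ≠ 0 →
  Module.finrank ℤ (⟨0, a, 0, b, 0⟩ : WeierstrassCurve ℚ).toAffine.Point ≤
    Module.finrank ℤ (⟨0, -2 * a, 0, a ^ 2 - 4 * b, 0⟩ : WeierstrassCurve ℚ).toAffine.Point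

/-- the forms for `Z/8`: the curve `y² = x (x² + (s² - 2 t) x + t²)`, `s = a²`,
`t = ((b² - a²) / 2)²` is 2-isogenous to `y² = x (x - a⁴) (x - b² (2 a² - b²))` -/
def M8 (a _b : ℤ) : ℤ := -a ^ 4

/-- the forms for `Z/8` -/
def N8 (a b : ℤ) : ℤ := b ^ 2 * (b ^ 2 - 2 * a ^ 2)

/-- PAR8c: parametrisation of the curves with a point of order 8 -/
def PAR8c : Prop := PARc 8 24 M8 N8

/-- LOW8c: there are many curves with a point of order 8 -/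
def LOW8c : Prop := LOWc 8 24

end Pool.Agent.L0h5.T8
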