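import Pool.Agent.L0h5.T8.Stm

/-!
# Curves with prescribed torsion, by height: statements, second part
-/

set_option autoImplicit false

namespace Pool.Agent.L0h5.T8

open Finset Pool.Agent.W262.RK Pool.Agent.W307.RT

/-- the forms for `Z/12`: the curve `y² = x (x² + (c² - 2 b) x + b²)`, `c = 4 u³ v`,
`4 b = -(u² - v²)³ (3 u² + v²)`, is 2-isogenous to
`y² = x (x - 16 u⁶ v²) (x - (u² + v²)³ (3 u² - v²))` -/
def M12 (u v : ℤ) : ℤ := -(16 * u ^ 6 * v ^ 2)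

/-- the forms for `Z/12` -/
def N12 (u v : ℤ) : ℤ := -((u ^ 2 + v ^ 2) ^ 3 * (3 * u ^ 2 - v ^ 2))

/-- PAR12c: parametrisation of the curves with a point of order 12 -/
def PAR12c : Prop := PARc 12 48 M12 N12

/-- LOW12c: there are many curves with a point of order 12 -/
def LOW12c : Prop := LOWc 12 48

/-- PAR4c: parametrisation of the curves with a point of order 4: the curve
`y² = x (x² + (c² - 2 b) x + b²)` is 2-isogenous to `y² = x (x - c²) (x - (c² - 4 b))` -/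
def PAR4c : Prop :=
  ∃ (C : ℕ) (F : ℤ × ℤ → ℤ × ℤ), ∀ H : ℕ, Set.InjOn F (Cc 4 H : Set (ℤ × ℤ)) ∧
    ∀ c ∈ Cc 4 H, (F c).1 ≠ 0 ∧ (F c).2 ≠ 0 ∧ (F c).1 ^ 2 ≠ 4 * (F c).2 ∧
      (F c).1.natAbs ^ 12 ≤ C * H ∧ (F c).2.natAbs ^ 6 ≤ C * H ∧
      Module.finrank ℤ (Sh c.1 c.2).toAffine.Point ≤
        Module.finrank ℤ (EAB ((F c).1 ^ 2) ((F c).1 ^ 2 - 4 * (F c).2)).toAffine.Point

/-- LOW4c: there are many curves with a point of order 4 -/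
def LOW4c : Prop :=
  ∃ (c : ℝ) (C T0 : ℕ), 0 < c ∧ ∀ T H : ℕ, T0 ≤ T → C * T ^ 12 ≤ H →
    c * T ^ 3 ≤ ((Cc 4 H).card : ℝ)

end Pool.Agent.L0h5.T8
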